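import Pool.Agent.Helper30.ML.Goals

/-!
# Project ML, packet QY: quotients at a vertex
-/

set_option autoImplicit false

namespace Pool.Agent.Helper62.ML

open scoped Classical
open Finset
open Pool.Agent.Helper94.KC (Proper InChain KStep KEq AllEq dR QG Even2)
open Pool.Agent.Helper30.ML

theorem ni_lt {V : Type} [Fintype V] (G H : SimpleGraph V) (v : V)
    (h : ∀ a, (∃ b, H.Adj a b) → ∃ b, G.Adj a b) (hv : ∃ b, G.Adj v b)
    (hv' : ¬ ∃ b, H.Adj v b) : ni H < ni G := by
  unfold ni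
  apply Finset.card_lt_card
  rw [Finset.ssubset_iff_of_subset]
  · exact ⟨v, by simpa using hv, by simpa using hv'⟩
  · intro a ha
    rw [mem_filter] at ha ⊢
    exact ⟨mem_univ _, h a ha.2⟩

theorem cr_self {V : Type} (x y : V) : cr x y y = x := by simp [cr]

theorem cr_of_ne {V : Type} (x y : V) {v : V} (h : v ≠ y) : cr x y v = v := by simp [cr, h]

theorem cr_ne {V : Type} {x y : V} (h : x ≠ y) (v : V) : cr x y v ≠ y := by
  unfold cr
  split_ifs with h1
  · exact h
  · exact h1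

/-- the vertices of the quotient which are not isolated -/
theorem qg_ni {V : Type} (G : SimpleGraph V) (x y : V) (hx : ∃ a, G.Adj x a) (a : V)
    (h : ∃ b, (QG G (cr x y)).Adj a b) : ∃ b, G.Adj a b := by
  obtain ⟨b, -, u, w, hu, -, huw⟩ := h
  by_cases h1 : u = y
  · subst h1
    rw [cr_self] at hu
    rw [← hu]
    exact hx
  · rw [cr_of_ne x y h1] at hu
    rw [← hu]
    exact ⟨w, huw⟩

theorem pQY : StmtSU → StmtCT → StmtQY := by
  intro hSU hCT
  refine ⟨?_, ?_, ?_, ?_⟩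
  · intro V _ G v x y hM hxy hvx hvy
    have hyv : y ≠ v := hvy.ne'
    have hvy' : v ≠ y := hvy.ne
    constructor
    · have h1 := hCT V G x v hM hvx.symm
      have h2 : (QG G (cr x v)).Adj x y :=
        ⟨hxy, v, y, cr_self x v, cr_of_ne x v hyv, hvy⟩
      have h3 := hCT V (QG G (cr x v)) x y h1 h2
      refine hSU V _ _ ?_ h3
      intro a' b' h
      obtain ⟨⟨hab, a, b, ha, hb, hadj⟩, ha', hb'⟩ := h
      have hav : a ≠ v := by
        rintro rfl
        rw [cr_of_ne x y hvy'] at ha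
        exact ha' ha.symm
      have hbv : b ≠ v := by
        rintro rfl
        rw [cr_of_ne x y hvy'] at hb
        exact hb' hb.symm
      exact ⟨hab, a, b, ha, hb, hadj.ne, a, b, cr_of_ne x v hav, cr_of_ne x v hbv, hadj⟩
    · refine ni_lt G _ v ?_ ⟨x, hvx⟩ ?_
      · rintro a ⟨b, h, -, -⟩
        exact qg_ni G x y ⟨v, hvx.symm⟩ a ⟨b, h⟩
      · rintro ⟨b, -, h, -⟩
        exact h rfl
  · intro V _ G p q hpq hp hq
    refine ni_lt G _ q (fun a h => qg_ni G p q hp a h) hq ?_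
    rintro ⟨b, -, u, w, hu, -, -⟩
    exact cr_ne hpq u hu
  · intro V _ G p q hpq hM
    have h1 : (adE G p q).Adj p q := Or.inr ⟨hpq, Or.inl ⟨rfl, rfl⟩⟩
    refine hSU V _ _ ?_ (hCT V _ p q hM h1)
    rintro a b ⟨hab, u, w, hu, hw, huw⟩
    exact ⟨hab, u, w, hu, hw, Or.inl huw⟩
  · intro V _ G v hv
    refine ni_lt G _ v ?_ hv ?_
    · rintro a ⟨b, h, -, -⟩
      exact ⟨b, h⟩
    · rintro ⟨b, -, h, -⟩
      exact h rfl

end Pool.Agent.Helper62.ML
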